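import Pool.Agent.V5helper35.AS.Defs

/-!
# Project AS, job MOD: automorphisms which act trivially on the homology modulo 4
-/

set_option autoImplicit false

namespace Pool.Agent.V5helper62.AS

open Pool.Agent.V5helper35.AS
open FreeGroup (of)
open Multiplicative (toAdd ofAdd)

/-- The action of `β` on the homology modulo 4. -/
def Rel (β : MulAut F) (a b c d : ZMod 4) : Prop := ∀ f : F →* Multiplicative (ZMod 4),
  toAdd (f (β (of 0))) = a * toAdd (f (of 0)) + b * toAdd (f (of 1)) ∧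
  toAdd (f (β (of 1))) = c * toAdd (f (of 0)) + d * toAdd (f (of 1))

variable {β γ : MulAut F} {a b c d a' b' c' d' : ZMod 4}

lemma Rel.mul (h : Rel β a b c d) (h' : Rel γ a' b' c' d') :
    Rel (β * γ) (a' * a + b' * c) (a' * b + b' * d) (c' * a + d' * c) (c' * b + d' * d) := by
  intro f
  obtain ⟨h1, h2⟩ := h f
  obtain ⟨h3, h4⟩ := h' (f.comp β.toMonoidHom)
  have e : ∀ u, (f.comp β.toMonoidHom) u = f (β u) := fun u => rfl
  rw [e, e, e] at h3 h4
  rw [MulAut.mul_apply, MulAut.mul_apply, h3, h4, h1, h2]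
  constructor <;> ring

lemma four : (4 : ZMod 4) = 0 := by decide

lemma rel_rho (w : F) : ∃ p q : ZMod 4, Rel (rho w) 1 (2 * p) (2 * q) 1 := by
  induction w using FreeGroup.induction_on with
  | C1 =>
    refine ⟨0, 0, fun f => ?_⟩
    simp
  | of i =>
    fin_cases i
    · refine ⟨0, 1, fun f => ?_⟩
      simp
      ring
    · refine ⟨-1, 0, fun f => ?_⟩
      simp
      ring
  | inv_of i ih =>
    obtain ⟨p, q, h⟩ := ih
    refine ⟨-p, -q, fun f => ?_⟩
    rw [map_inv]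
    obtain ⟨h1, h2⟩ := h (f.comp ((rho (of i))⁻¹ : MulAut F).toMonoidHom)
    have e : ∀ u, (f.comp ((rho (of i))⁻¹ : MulAut F).toMonoidHom) u =
      f ((rho (of i))⁻¹ u) := fun u => rfl
    have e2 : ∀ u, (rho (of i))⁻¹ (rho (of i) u) = u := fun u => MulAut.inv_apply_self _ _ _
    rw [e, e, e, e2] at h1
    rw [e, e, e, e2] at h2
    constructor
    · linear_combination -h1 + 2 * p * h2 + p * q * toAdd (f ((rho (of i))⁻¹ (of 0))) * four
    · linear_combination -h2 + 2 * q * h1 + p * q * toAdd (f ((rho (of i))⁻¹ (of 1))) * four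
  | mul u v ihu ihv =>
    obtain ⟨p, q, h⟩ := ihu
    obtain ⟨p', q', h'⟩ := ihv
    refine ⟨p + p', q + q', ?_⟩
    rw [map_mul]
    have h1 := h.mul h'
    have e1 : (1 : ZMod 4) * 1 + 2 * p' * (2 * q) = 1 := by linear_combination p' * q * four
    have e2 : (1 : ZMod 4) * (2 * p) + 2 * p' * 1 = 2 * (p + p') := by ring
    have e3 : 2 * q' * 1 + (1 : ZMod 4) * (2 * q) = 2 * (q + q') := by ring
    have e4 : 2 * q' * (2 * p) + (1 : ZMod 4) * 1 = 1 := by linear_combination q' * p * four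
    rw [e1, e2, e3, e4] at h1
    exact h1

/-- **JOB MOD.** -/
theorem t_MOD (hSTR : S_STR) : S_MOD := by
  intro α hα
  obtain ⟨g, w, s, t, hs, ht, h⟩ := hSTR α
  obtain ⟨p, q, hR⟩ := rel_rho w
  have hinv : ∀ (f : F →* Multiplicative (ZMod 4)) (u : F), f ((rho w * s * t) u) = f u := by
    intro f u
    have h1 := hα f u
    have e : α = MulAut.conj g * (rho w * s * t) := by rw [h]; simp only [mul_assoc]
    rw [e, MulAut.mul_apply, MulAut.conj_apply, map_mul, map_mul, map_inv, mul_comm (f g),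
      mul_assoc, mul_inv_cancel, mul_one] at h1
    exact h1
  have key : ∀ a b c d : ZMod 4, Rel (rho w * s * t) a b c d → a = 1 ∧ b = 0 ∧ c = 0 ∧ d = 1 := by
    intro a b c d hr
    obtain ⟨h1, h2⟩ := hr (mk2 (ofAdd 1) 1)
    obtain ⟨h3, h4⟩ := hr (mk2 1 (ofAdd 1))
    rw [hinv] at h1 h2 h3 h4
    simp only [mk2_X, mk2_Y, toAdd_ofAdd, toAdd_one, mul_one, mul_zero, add_zero, zero_add]
      at h1 h2 h3 h4
    exact ⟨h1.symm, h3.symm, h2.symm, h4.symm⟩
  have hs' : (s = 1 ∧ Rel s 1 0 0 1) ∨ Rel s (-1) 0 0 (-1) ∨ Rel s (-1) 0 0 1 ∨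
      Rel s 1 0 0 (-1) := by
    rcases hs with rfl | rfl | rfl | rfl
    · exact Or.inl ⟨rfl, fun f => by simp⟩
    · exact Or.inr (Or.inl fun f => by simp)
    · exact Or.inr (Or.inr (Or.inl fun f => by simp))
    · exact Or.inr (Or.inr (Or.inr fun f => by simp [MulAut.mul_apply]))
  have ht' : (t = 1 ∧ Rel t 1 0 0 1) ∨ Rel t 0 1 1 0 ∨ Rel t 1 1 0 1 ∨ Rel t 1 1 1 0 ∨
      Rel t 0 1 1 1 ∨ Rel t 1 0 1 1 := by
    rcases ht with rfl | rfl | rfl | rfl | rfl | rfl
    · exact Or.inl ⟨rfl, fun f => by simp⟩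
    · exact Or.inr (Or.inl fun f => by simp)
    · exact Or.inr (Or.inr (Or.inl fun f => by simp))
    · exact Or.inr (Or.inr (Or.inr (Or.inl fun f => by simp [MulAut.mul_apply, add_comm])))
    · exact Or.inr (Or.inr (Or.inr (Or.inr (Or.inl fun f => by simp [MulAut.mul_apply]))))
    · exact Or.inr (Or.inr (Or.inr (Or.inr (Or.inr fun f => by
        simp [MulAut.mul_apply, add_comm]))))
  clear hs ht
  rcases hs' with ⟨rfl, hS⟩ | hS | hS | hS <;>
    rcases ht' with ⟨rfl, hT⟩ | hT | hT | hT | hT | hT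
  · exact ⟨g, w, by rw [h, mul_one, mul_one]⟩
  all_goals
    exfalso
    refine absurd (key _ _ _ _ ((hR.mul hS).mul hT)) ?_
    clear * - p q
    revert p q
    decide

end Pool.Agent.V5helper62.AS
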